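import Mathlib

/-!
# Pairs of numbers whose quotient is close to one: the count

`s a²` and `t b²` with coprime `a`, `b`.
-/

set_option autoImplicit false

namespace Pool.Agent.Q129.L2

open Finset

/-- the distance of the logarithms of `s a²` and `t b²` -/
noncomputable def lam (s t a b : ℕ) : ℝ :=
  |(Real.log s + 2 * Real.log a) - (Real.log t + 2 * Real.log b)|

open Classical in
/-- the coprime pairs `(a, b)` with `s a² ≠ t b²` close to each other -/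
noncomputable def AB (X Y κ s t : ℕ) : Finset (ℕ × ℕ) :=
  (Icc 1 X ×ˢ Icc 1 Y).filter fun p => Nat.Coprime p.1 p.2 ∧ s * p.1 ^ 2 ≠ t * p.2 ^ 2 ∧
    (κ = 0 ∨ lam s t p.1 p.2 ≤ 1 / 2 ^ κ)

theorem mem_AB {X Y κ s t : ℕ} {p : ℕ × ℕ} : p ∈ AB X Y κ s t ↔
    (1 ≤ p.1 ∧ p.1 ≤ X ∧ 1 ≤ p.2 ∧ p.2 ≤ Y) ∧ Nat.Coprime p.1 p.2 ∧ s * p.1 ^ 2 ≠ t * p.2 ^ 2 ∧
      (κ = 0 ∨ lam s t p.1 p.2 ≤ 1 / 2 ^ κ) := by
  unfold AB
  rw [mem_filter, mem_product, mem_Icc, mem_Icc]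
  tauto

theorem logsep {m n R : ℕ} (hm : 1 ≤ m) (hn : 1 ≤ n) (hne : m ≠ n) (hmR : m ≤ R) (hnR : n ≤ R) :
    1 ≤ (R : ℝ) * |Real.log m - Real.log n| := by
  wlog h : n < m generalizing m n
  · rw [abs_sub_comm]
    exact this hn hm hne.symm hnR hmR (by omega)
  have hm0 : (0 : ℝ) < m := by exact_mod_cast hm
  have hn0 : (0 : ℝ) < n := by exact_mod_cast hn
  rw [← Real.log_div hm0.ne' hn0.ne']
  have h1 := Real.one_sub_inv_le_log_of_pos (div_pos hm0 hn0)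
  rw [inv_div] at h1
  have h2 : (n : ℝ) + 1 ≤ m := by exact_mod_cast h
  have h3 : (1 : ℝ) / m ≤ 1 - n / m := by
    rw [div_le_iff₀ hm0]
    have : (1 - (n : ℝ) / m) * m = m - n := by field_simp
    rw [this]
    linarith
  have h4 : 1 / (m : ℝ) ≤ |Real.log (m / n)| := (h3.trans h1).trans (le_abs_self _)
  have h5 : (m : ℝ) ≤ R := by exact_mod_cast hmR
  calc (1 : ℝ) = m * (1 / m) := by field_simp
    _ ≤ R * |Real.log (m / n)| := mul_le_mul h5 h4 (by positivity) (by positivity)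

theorem cop_ne {a b a' b' : ℕ} (h : Nat.Coprime a b) (h' : Nat.Coprime a' b') (ha : 1 ≤ a)
    (he : a * b' = a' * b) : (a, b) = (a', b') := by
  have h1 : a ∣ a' := by
    apply h.dvd_of_dvd_mul_right
    exact ⟨b', he.symm⟩
  have h2 : a' ∣ a := by
    apply h'.dvd_of_dvd_mul_right
    exact ⟨b, he⟩
  have h3 : a = a' := Nat.dvd_antisymm h1 h2
  subst h3
  have h4 : b' = b := Nat.eq_of_mul_eq_mul_left (by omega) he
  rw [h4]

/-- points at distances at least one in an interval -/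
theorem count_sep {ι : Type} (S : Finset ι) (φ : ι → ℝ) (B : ℝ)
    (h0 : ∀ i ∈ S, 0 ≤ φ i) (h1 : ∀ i ∈ S, φ i ≤ B)
    (hs : ∀ i ∈ S, ∀ j ∈ S, i ≠ j → 1 ≤ |φ i - φ j|) : S.card ≤ ⌊B⌋₊ + 1 := by
  rw [← card_range (⌊B⌋₊ + 1)]
  apply card_le_card_of_injOn (fun i => ⌊φ i⌋₊)
  · intro i hi
    rw [mem_coe] at hi
    simp only [coe_range, Set.mem_Iio]
    exact Nat.lt_succ_of_le (Nat.floor_le_floor (h1 i hi))
  · intro i hi j hj hij
    rw [mem_coe] at hi hj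
    by_contra hne
    have h2 := hs i hi j hj hne
    simp only at hij
    have h3 := Nat.floor_le (h0 i hi)
    have h4 := Nat.lt_floor_add_one (φ i)
    have h5 := Nat.floor_le (h0 j hj)
    have h6 := Nat.lt_floor_add_one (φ j)
    rw [hij] at h3 h4
    have h7 : |φ i - φ j| < 1 := by
      rw [abs_lt]
      constructor <;> linarith
    linarith

/-- first bound of the number of the pairs -/
theorem card_AB {X Y κ s t : ℕ} (hκ : κ ≠ 0) :
    (AB X Y κ s t).card ≤ ⌊(X : ℝ) * Y * (1 / 2 ^ κ)⌋₊ + 1 := by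
  set δ : ℝ := 1 / 2 ^ κ with hδ
  apply count_sep _ (fun p => (X : ℝ) * Y * (((Real.log s + 2 * Real.log p.1) -
    (Real.log t + 2 * Real.log p.2)) / 2 + δ / 2))
  · intro p hp
    rw [mem_AB] at hp
    have h1 : lam s t p.1 p.2 ≤ δ := by
      rcases hp.2.2.2 with h | h
      · exact absurd h hκ
      · exact h
    unfold lam at h1
    rw [abs_le] at h1
    apply mul_nonneg (by positivity)
    linarith [h1.1]
  · intro p hp
    rw [mem_AB] at hp
    have h1 : lam s t p.1 p.2 ≤ δ := by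
      rcases hp.2.2.2 with h | h
      · exact absurd h hκ
      · exact h
    unfold lam at h1
    rw [abs_le] at h1
    apply mul_le_mul_of_nonneg_left _ (by positivity)
    linarith [h1.2]
  · rintro ⟨a, b⟩ hp ⟨a', b'⟩ hp' hne
    rw [mem_AB] at hp hp'
    obtain ⟨⟨ha, haX, hb, hbY⟩, hc, -⟩ := hp
    obtain ⟨⟨ha', haX', hb', hbY'⟩, hc', -⟩ := hp'
    simp only at ha haX hb hbY hc ha' haX' hb' hbY' hc' ⊢
    have hne' : a * b' ≠ a' * b := fun h => hne (cop_ne hc hc' ha h)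
    have h1 := logsep (Nat.mul_pos ha hb') (Nat.mul_pos ha' hb) hne' (Nat.mul_le_mul haX hbY')
      (Nat.mul_le_mul haX' hbY)
    have ha0 : (a : ℝ) ≠ 0 := by
      have : (0 : ℝ) < a := by exact_mod_cast ha
      exact this.ne'
    have hb0 : (b : ℝ) ≠ 0 := by
      have : (0 : ℝ) < b := by exact_mod_cast hb
      exact this.ne'
    have ha0' : (a' : ℝ) ≠ 0 := by
      have : (0 : ℝ) < a' := by exact_mod_cast ha'
      exact this.ne'
    have hb0' : (b' : ℝ) ≠ 0 := by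
      have : (0 : ℝ) < b' := by exact_mod_cast hb'
      exact this.ne'
    push_cast at h1
    rw [Real.log_mul ha0 hb0', Real.log_mul ha0' hb0] at h1
    rw [← mul_sub, abs_mul, abs_of_nonneg (by positivity : (0 : ℝ) ≤ (X : ℝ) * Y)]
    have e : ((Real.log s + 2 * Real.log a) - (Real.log t + 2 * Real.log b)) / 2 + δ / 2 -
        (((Real.log s + 2 * Real.log a') - (Real.log t + 2 * Real.log b')) / 2 + δ / 2) =
        Real.log a + Real.log b' - (Real.log a' + Real.log b) := by ring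
    rw [e]
    exact h1

theorem diff_le {u v δ : ℝ} (hu : 0 < u) (hv : 0 < v) (h1 : |Real.log u - Real.log v| ≤ δ) (hδ : δ ≤ 1) :
    |u - v| ≤ 2 * δ * v := by
  have h2 := Real.abs_exp_sub_one_le (h1.trans hδ)
  rw [← Real.log_div hu.ne' hv.ne', Real.exp_log (div_pos hu hv)] at h2
  rw [← Real.log_div hu.ne' hv.ne'] at h1
  have e : |u - v| = |u / v - 1| * v := by
    rw [← abs_of_pos hv, ← abs_mul, abs_of_pos hv]
    congr 1
    field_simp
  rw [e]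
  apply mul_le_mul_of_nonneg_right _ hv.le
  linarith

theorem count_h {ι : Type} (S : Finset ι) (T : ℕ) (B : ℝ) (hB : 0 ≤ B) (f : ι → ℕ) (g : ι → ℤ)
    (hf : ∀ i ∈ S, f i ∈ Icc 1 T) (hg0 : ∀ i ∈ S, g i ≠ 0) (hg : ∀ i ∈ S, |(g i : ℝ)| ≤ B)
    (hinj : ∀ i ∈ S, ∀ j ∈ S, f i = f j → g i = g j → i = j) : (S.card : ℝ) ≤ T * (2 * B) := by
  have h1 : S.card ≤ (Icc 1 T ×ˢ ((Icc (-⌊B⌋) ⌊B⌋).erase 0)).card := by
    apply card_le_card_of_injOn (fun i => (f i, g i))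
    · intro i hi
      rw [mem_coe] at hi
      rw [mem_coe, mem_product]
      refine ⟨hf i hi, ?_⟩
      rw [mem_erase, mem_Icc]
      have h := hg i hi
      rw [abs_le] at h
      refine ⟨hg0 i hi, ?_, ?_⟩
      · have : -(g i) ≤ ⌊B⌋ := by
          apply Int.le_floor.mpr
          push_cast
          linarith [h.1]
        linarith
      · exact Int.le_floor.mpr h.2
    · intro i hi j hj hij
      rw [mem_coe] at hi hj
      simp only [Prod.mk.injEq] at hij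
      exact hinj i hi j hj hij.1 hij.2
  have hfl : 0 ≤ ⌊B⌋ := Int.floor_nonneg.mpr hB
  have h2 : ((Icc (-⌊B⌋) ⌊B⌋).erase (0 : ℤ)).card = (2 * ⌊B⌋).toNat := by
    rw [card_erase_of_mem (by rw [mem_Icc]; constructor <;> linarith), Int.card_Icc]
    omega
  rw [card_product, h2, Nat.card_Icc, Nat.add_sub_cancel] at h1
  have h3 : ((2 * ⌊B⌋).toNat : ℝ) ≤ 2 * B := by
    have e : (((2 * ⌊B⌋).toNat : ℤ) : ℝ) = ((2 * ⌊B⌋ : ℤ) : ℝ) := by
      congr 1
      exact Int.toNat_of_nonneg (by linarith)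
    have e2 : ((2 * ⌊B⌋).toNat : ℝ) = (((2 * ⌊B⌋).toNat : ℤ) : ℝ) := by norm_cast
    rw [e2, e]
    push_cast
    have := Int.floor_le B
    linarith
  calc (S.card : ℝ) ≤ ((T * (2 * ⌊B⌋).toNat : ℕ) : ℝ) := by exact_mod_cast h1
    _ = T * ((2 * ⌊B⌋).toNat : ℝ) := by push_cast; ring
    _ ≤ T * (2 * B) := mul_le_mul_of_nonneg_left h3 (by positivity)

open Classical in
/-- the pairs `(s, t)` -/
noncomputable def ST (T U κ a b : ℕ) : Finset (ℕ × ℕ) :=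
  (Icc 1 T ×ˢ Icc 1 U).filter fun q => q.1 * a ^ 2 ≠ q.2 * b ^ 2 ∧ lam q.1 q.2 a b ≤ 1 / 2 ^ κ

theorem log_form {s a : ℕ} (hs : 1 ≤ s) (ha : 1 ≤ a) :
    Real.log ((s : ℝ) * (a : ℝ) ^ 2) = Real.log s + 2 * Real.log a := by
  have hs0 : (0 : ℝ) < s := by exact_mod_cast hs
  have ha0 : (0 : ℝ) < a := by exact_mod_cast ha
  rw [Real.log_mul hs0.ne' (by positivity), Real.log_pow]
  push_cast
  ring

/-- second bound -/
theorem card_ST (T U κ : ℕ) {a b : ℕ} (ha : 1 ≤ a) (hb : 1 ≤ b) :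
    ((ST T U κ a b).card : ℝ) ≤ 4 * (1 / 2 ^ κ) * T * U * a * b := by
  set δ : ℝ := 1 / 2 ^ κ with hδ
  have hδ0 : 0 ≤ δ := by positivity
  have hδ1 : δ ≤ 1 := by
    rw [hδ, div_le_one (by positivity)]
    exact one_le_pow₀ (by norm_num)
  have ha0 : (0 : ℝ) < a := by exact_mod_cast ha
  have hb0 : (0 : ℝ) < b := by exact_mod_cast hb
  have key : ∀ q ∈ ST T U κ a b, (q.1 ∈ Icc 1 T ∧ q.2 ∈ Icc 1 U) ∧ ((q.1 * a ^ 2 : ℕ) : ℤ) - ((q.2 * b ^ 2 : ℕ) : ℤ) ≠ 0 ∧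
      |(q.1 : ℝ) * a ^ 2 - q.2 * b ^ 2| ≤ 2 * δ * (q.1 * a ^ 2) ∧
      |(q.1 : ℝ) * a ^ 2 - q.2 * b ^ 2| ≤ 2 * δ * (q.2 * b ^ 2) := by
    intro q hq
    unfold ST at hq
    rw [mem_filter, mem_product] at hq
    obtain ⟨hq1, hq2, hq3⟩ := hq
    have h1 := (mem_Icc.mp hq1.1).1
    have h2 := (mem_Icc.mp hq1.2).1
    have h10 : (0 : ℝ) < q.1 := by exact_mod_cast h1
    have h20 : (0 : ℝ) < q.2 := by exact_mod_cast h2
    unfold lam at hq3
    rw [← log_form h1 ha, ← log_form h2 hb] at hq3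
    refine ⟨hq1, ?_, ?_, ?_⟩
    · intro h
      apply hq2
      have : ((q.1 * a ^ 2 : ℕ) : ℤ) = ((q.2 * b ^ 2 : ℕ) : ℤ) := by linarith
      exact_mod_cast this
    · rw [abs_sub_comm]
      apply diff_le (by positivity) (by positivity) _ hδ1
      rw [abs_sub_comm]
      exact hq3
    · exact diff_le (by positivity) (by positivity) hq3 hδ1
  rcases le_total a b with hab | hab
  · have hab' : (a : ℝ) ≤ b := by exact_mod_cast hab
    have h1 := count_h (ST T U κ a b) U (2 * δ * (T * (a * b))) (by positivity) (fun q => q.2)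
      (fun q => ((q.1 * a ^ 2 : ℕ) : ℤ) - ((q.2 * b ^ 2 : ℕ) : ℤ)) (fun q hq => (key q hq).1.2)
      (fun q hq => (key q hq).2.1) ?_ ?_
    · refine h1.trans (le_of_eq ?_)
      ring
    · intro q hq
      obtain ⟨h1, h2, h3, h4⟩ := key q hq
      push_cast
      refine h3.trans ?_
      apply mul_le_mul_of_nonneg_left _ (by positivity)
      have h5 : (q.1 : ℝ) ≤ T := by exact_mod_cast (mem_Icc.mp h1.1).2
      apply mul_le_mul h5 _ (by positivity) (by positivity)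
      rw [sq]
      exact mul_le_mul_of_nonneg_left hab' ha0.le
    · intro q hq q' hq' h2 h3
      rw [h2] at h3
      have h4 : ((q.1 * a ^ 2 : ℕ) : ℤ) = ((q'.1 * a ^ 2 : ℕ) : ℤ) := by linarith
      have h5 : q.1 * a ^ 2 = q'.1 * a ^ 2 := by exact_mod_cast h4
      have h6 : q.1 = q'.1 := Nat.eq_of_mul_eq_mul_right (by positivity) h5
      exact Prod.ext h6 h2
  · have hab' : (b : ℝ) ≤ a := by exact_mod_cast hab
    have h1 := count_h (ST T U κ a b) T (2 * δ * (U * (a * b))) (by positivity) (fun q => q.1)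
      (fun q => ((q.1 * a ^ 2 : ℕ) : ℤ) - ((q.2 * b ^ 2 : ℕ) : ℤ)) (fun q hq => (key q hq).1.1)
      (fun q hq => (key q hq).2.1) ?_ ?_
    · refine h1.trans (le_of_eq ?_)
      ring
    · intro q hq
      obtain ⟨h1, h2, h3, h4⟩ := key q hq
      push_cast
      refine h4.trans ?_
      apply mul_le_mul_of_nonneg_left _ (by positivity)
      have h5 : (q.2 : ℝ) ≤ U := by exact_mod_cast (mem_Icc.mp h1.2).2
      apply mul_le_mul h5 _ (by positivity) (by positivity)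
      rw [sq]
      exact mul_le_mul_of_nonneg_right hab' hb0.le
    · intro q hq q' hq' h2 h3
      rw [h2] at h3
      have h4 : ((q.2 * b ^ 2 : ℕ) : ℤ) = ((q'.2 * b ^ 2 : ℕ) : ℤ) := by linarith
      have h5 : q.2 * b ^ 2 = q'.2 * b ^ 2 := by exact_mod_cast h4
      have h6 : q.2 = q'.2 := Nat.eq_of_mul_eq_mul_right (by positivity) h5
      exact Prod.ext h2 h6

/-- the double count -/
theorem sum_AB (T U X Y κ : ℕ) (hκ : κ ≠ 0) :
    ∑ s ∈ Icc 1 T, ∑ t ∈ Icc 1 U, ((AB X Y κ s t).card : ℝ) ≤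
      4 * (1 / 2 ^ κ) * T * U * (X * Y) ^ 2 := by
  classical
  have h1 : ∀ s t, ((AB X Y κ s t).card : ℝ) ≤ ∑ p ∈ Icc 1 X ×ˢ Icc 1 Y,
      if s * p.1 ^ 2 ≠ t * p.2 ^ 2 ∧ lam s t p.1 p.2 ≤ 1 / 2 ^ κ then (1 : ℝ) else 0 := by
    intro s t
    rw [Finset.sum_boole]
    apply Nat.cast_le.mpr
    apply card_le_card
    intro p hp
    rw [mem_AB] at hp
    rw [mem_filter, mem_product, mem_Icc, mem_Icc]
    obtain ⟨⟨h1, h2, h3, h4⟩, -, h5, h6⟩ := hp
    refine ⟨⟨⟨h1, h2⟩, h3, h4⟩, h5, ?_⟩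
    rcases h6 with h | h
    · exact absurd h hκ
    · exact h
  calc ∑ s ∈ Icc 1 T, ∑ t ∈ Icc 1 U, ((AB X Y κ s t).card : ℝ)
      ≤ ∑ s ∈ Icc 1 T, ∑ t ∈ Icc 1 U, ∑ p ∈ Icc 1 X ×ˢ Icc 1 Y,
        (if s * p.1 ^ 2 ≠ t * p.2 ^ 2 ∧ lam s t p.1 p.2 ≤ 1 / 2 ^ κ then (1 : ℝ) else 0) :=
        sum_le_sum fun s _ => sum_le_sum fun t _ => h1 s t
    _ = ∑ p ∈ Icc 1 X ×ˢ Icc 1 Y, ∑ q ∈ Icc 1 T ×ˢ Icc 1 U,
        (if q.1 * p.1 ^ 2 ≠ q.2 * p.2 ^ 2 ∧ lam q.1 q.2 p.1 p.2 ≤ 1 / 2 ^ κ then (1 : ℝ) else 0) := by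
        rw [← sum_product', sum_comm]
    _ = ∑ p ∈ Icc 1 X ×ˢ Icc 1 Y, ((ST T U κ p.1 p.2).card : ℝ) := by
        apply sum_congr rfl
        intro p _
        rw [Finset.sum_boole]
        unfold ST
        congr
    _ ≤ ∑ p ∈ Icc 1 X ×ˢ Icc 1 Y, (4 * (1 / 2 ^ κ) * T * U * (X * Y) : ℝ) := by
        apply sum_le_sum
        intro p hp
        rw [mem_product, mem_Icc, mem_Icc] at hp
        obtain ⟨⟨h1, h2⟩, h3, h4⟩ := hp
        refine (card_ST T U κ h1 h3).trans ?_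
        have h2' : (p.1 : ℝ) ≤ X := by exact_mod_cast h2
        have h4' : (p.2 : ℝ) ≤ Y := by exact_mod_cast h4
        rw [mul_assoc (4 * (1 / 2 ^ κ) * (T : ℝ) * U)]
        apply mul_le_mul_of_nonneg_left _ (by positivity)
        exact mul_le_mul h2' h4' (by positivity) (by positivity)
    _ = 4 * (1 / 2 ^ κ) * T * U * (X * Y) ^ 2 := by
        rw [sum_const, card_product, Nat.card_Icc, Nat.card_Icc, nsmul_eq_mul]
        push_cast
        ring

/-- The sum of the squares of the numbers of the pairs. -/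
theorem key (T U X Y κ : ℕ) :
    ∑ s ∈ Icc 1 T, ∑ t ∈ Icc 1 U, ((AB X Y κ s t).card : ℝ) ^ 2 ≤
      4 * (1 / 2 ^ κ) * (X * Y) ^ 2 * T * U := by
  by_cases hκ : κ = 0
  · subst hκ
    have h1 : ∀ s t, ((AB X Y 0 s t).card : ℝ) ^ 2 ≤ 4 * (X * Y) ^ 2 := by
      intro s t
      have h2 : (AB X Y 0 s t).card ≤ X * Y := by
        unfold AB
        refine (card_filter_le _ _).trans (le_of_eq ?_)
        rw [card_product, Nat.card_Icc, Nat.card_Icc]
        simp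
      have h3 : ((AB X Y 0 s t).card : ℝ) ≤ X * Y := by exact_mod_cast h2
      have h4 : ((AB X Y 0 s t).card : ℝ) ^ 2 ≤ (X * Y) ^ 2 := pow_le_pow_left₀ (by positivity) h3 2
      nlinarith [sq_nonneg ((X : ℝ) * Y)]
    calc ∑ s ∈ Icc 1 T, ∑ t ∈ Icc 1 U, ((AB X Y 0 s t).card : ℝ) ^ 2
        ≤ ∑ s ∈ Icc 1 T, ∑ t ∈ Icc 1 U, 4 * ((X : ℝ) * Y) ^ 2 :=
          sum_le_sum fun s _ => sum_le_sum fun t _ => h1 s t
      _ = 4 * (1 / 2 ^ 0) * (X * Y) ^ 2 * T * U := by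
          rw [sum_const, sum_const, Nat.card_Icc, Nat.card_Icc, nsmul_eq_mul, nsmul_eq_mul]
          simp
          ring
  · set δ : ℝ := 1 / 2 ^ κ with hδ
    have hδ0 : 0 < δ := by positivity
    have hδ1 : δ ≤ 1 := by
      rw [hδ, div_le_one (by positivity)]
      exact one_le_pow₀ (by norm_num)
    rcases lt_or_ge ((X : ℝ) * Y * δ) 1 with h1 | h1
    · have h2 : ∀ s t, ((AB X Y κ s t).card : ℝ) ^ 2 ≤ (AB X Y κ s t).card := by
        intro s t
        have h3 := card_AB (X := X) (Y := Y) (s := s) (t := t) hκ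
        rw [Nat.floor_eq_zero.mpr h1] at h3
        have h4 : ((AB X Y κ s t).card : ℝ) ≤ 1 := by exact_mod_cast h3
        rw [sq]
        exact mul_le_of_le_one_left (by positivity) h4
      calc ∑ s ∈ Icc 1 T, ∑ t ∈ Icc 1 U, ((AB X Y κ s t).card : ℝ) ^ 2
          ≤ ∑ s ∈ Icc 1 T, ∑ t ∈ Icc 1 U, ((AB X Y κ s t).card : ℝ) :=
            sum_le_sum fun s _ => sum_le_sum fun t _ => h2 s t
        _ ≤ 4 * δ * T * U * (X * Y) ^ 2 := sum_AB T U X Y κ hκ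
        _ = 4 * δ * (X * Y) ^ 2 * T * U := by ring
    · have h2 : ∀ s t, ((AB X Y κ s t).card : ℝ) ^ 2 ≤ 4 * δ * (X * Y) ^ 2 := by
        intro s t
        have h3 := card_AB (X := X) (Y := Y) (s := s) (t := t) hκ
        have h4 : ((AB X Y κ s t).card : ℝ) ≤ 2 * ((X : ℝ) * Y * δ) := by
          calc ((AB X Y κ s t).card : ℝ) ≤ ((⌊(X : ℝ) * Y * δ⌋₊ + 1 : ℕ) : ℝ) := Nat.cast_le.mpr h3
            _ ≤ (X : ℝ) * Y * δ + 1 := by
                push_cast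
                have := Nat.floor_le (by positivity : 0 ≤ (X : ℝ) * Y * δ)
                linarith
            _ ≤ 2 * ((X : ℝ) * Y * δ) := by linarith
        calc ((AB X Y κ s t).card : ℝ) ^ 2 ≤ (2 * ((X : ℝ) * Y * δ)) ^ 2 :=
              pow_le_pow_left₀ (by positivity) h4 2
          _ = 4 * (X * Y) ^ 2 * δ * δ := by ring
          _ ≤ 4 * (X * Y) ^ 2 * δ * 1 := mul_le_mul_of_nonneg_left hδ1 (by positivity)
          _ = 4 * δ * (X * Y) ^ 2 := by ring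
      calc ∑ s ∈ Icc 1 T, ∑ t ∈ Icc 1 U, ((AB X Y κ s t).card : ℝ) ^ 2
          ≤ ∑ s ∈ Icc 1 T, ∑ t ∈ Icc 1 U, 4 * δ * ((X : ℝ) * Y) ^ 2 :=
            sum_le_sum fun s _ => sum_le_sum fun t _ => h2 s t
        _ = 4 * δ * (X * Y) ^ 2 * T * U := by
            rw [sum_const, sum_const, Nat.card_Icc, Nat.card_Icc, nsmul_eq_mul, nsmul_eq_mul]
            push_cast
            ring

/-! ## Dyadic sums -/

theorem exists_dy {Q s : ℕ} (hs : s ∈ Icc 1 Q) :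
    ∃ σ ∈ range (Nat.log 2 Q + 1), s ≤ 2 ^ (σ + 1) ∧ (1 : ℝ) / s ≤ 1 / 2 ^ σ := by
  rw [mem_Icc] at hs
  refine ⟨Nat.log 2 s, ?_, ?_, ?_⟩
  · rw [mem_range]
    exact Nat.lt_succ_of_le (Nat.log_mono_right hs.2)
  · exact (Nat.lt_pow_succ_log_self (by norm_num) s).le
  · have h1 : 2 ^ Nat.log 2 s ≤ s := Nat.pow_log_le_self 2 (by omega)
    apply one_div_le_one_div_of_le (by positivity)
    exact_mod_cast h1

theorem dy1 (Q : ℕ) (c : ℕ → ℝ) (hc : ∀ s, 0 ≤ c s) (K : ℝ)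
    (hK : ∀ T : ℕ, ∑ s ∈ Icc 1 T, c s ≤ K * T) :
    ∑ s ∈ Icc 1 Q, c s / s ≤ 2 * (Nat.log 2 Q + 1) * K := by
  classical
  have h1 : ∀ s ∈ Icc 1 Q, c s / s ≤ ∑ σ ∈ range (Nat.log 2 Q + 1),
      (1 / 2 ^ σ : ℝ) * (if s ≤ 2 ^ (σ + 1) then c s else 0) := by
    intro s hs
    obtain ⟨σ, hσ, h2, h3⟩ := exists_dy hs
    refine le_trans ?_ (single_le_sum (f := fun σ : ℕ => (1 / 2 ^ σ : ℝ) * (if s ≤ 2 ^ (σ + 1) then c s else 0))
      (fun i _ => by
        apply mul_nonneg (by positivity)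
        split_ifs
        · exact hc s
        · exact le_rfl) hσ)
    rw [if_pos h2]
    calc c s / s = 1 / s * c s := by ring
      _ ≤ _ := mul_le_mul_of_nonneg_right h3 (hc s)
  calc ∑ s ∈ Icc 1 Q, c s / s ≤ ∑ s ∈ Icc 1 Q, ∑ σ ∈ range (Nat.log 2 Q + 1),
        (1 / 2 ^ σ : ℝ) * (if s ≤ 2 ^ (σ + 1) then c s else 0) := sum_le_sum h1
    _ = ∑ σ ∈ range (Nat.log 2 Q + 1), (1 / 2 ^ σ : ℝ) *
        ∑ s ∈ Icc 1 Q, (if s ≤ 2 ^ (σ + 1) then c s else 0) := by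
        rw [sum_comm]
        exact sum_congr rfl fun σ _ => (mul_sum _ _ _).symm
    _ ≤ ∑ σ ∈ range (Nat.log 2 Q + 1), 2 * K := by
        apply sum_le_sum
        intro σ _
        have h2 : ∑ s ∈ Icc 1 Q, (if s ≤ 2 ^ (σ + 1) then c s else 0) ≤ ∑ s ∈ Icc 1 (2 ^ (σ + 1)), c s := by
          rw [← sum_filter]
          apply sum_le_sum_of_subset_of_nonneg
          · intro s hs
            rw [mem_filter, mem_Icc] at hs
            rw [mem_Icc]
            exact ⟨hs.1.1, hs.2⟩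
          · intro s _ _
            exact hc s
        calc (1 / 2 ^ σ : ℝ) * ∑ s ∈ Icc 1 Q, (if s ≤ 2 ^ (σ + 1) then c s else 0)
            ≤ (1 / 2 ^ σ : ℝ) * (K * ((2 ^ (σ + 1) : ℕ) : ℝ)) :=
              mul_le_mul_of_nonneg_left (h2.trans (hK _)) (by positivity)
          _ = 2 * K := by
              push_cast
              field_simp
              ring
    _ = 2 * (Nat.log 2 Q + 1) * K := by
        rw [sum_const, card_range, nsmul_eq_mul]
        push_cast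
        ring

theorem dy2 (Q : ℕ) (c : ℕ → ℕ → ℝ) (hc : ∀ s t, 0 ≤ c s t) (K : ℝ)
    (hK : ∀ T U : ℕ, ∑ s ∈ Icc 1 T, ∑ t ∈ Icc 1 U, c s t ≤ K * T * U) :
    ∑ s ∈ Icc 1 Q, ∑ t ∈ Icc 1 Q, c s t / (s * t) ≤ 4 * (Nat.log 2 Q + 1) ^ 2 * K := by
  have h1 := dy1 Q (fun s => ∑ t ∈ Icc 1 Q, c s t / t)
    (fun s => sum_nonneg fun t _ => div_nonneg (hc s t) (by positivity))
    (2 * (Nat.log 2 Q + 1) * K) (by
      intro T
      have h2 := dy1 Q (fun t => ∑ s ∈ Icc 1 T, c s t) (fun t => sum_nonneg fun s _ => hc s t) (K * T)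
        (by
          intro U
          rw [sum_comm]
          exact hK T U)
      calc ∑ s ∈ Icc 1 T, ∑ t ∈ Icc 1 Q, c s t / t = ∑ t ∈ Icc 1 Q, (∑ s ∈ Icc 1 T, c s t) / t := by
            rw [sum_comm]
            exact sum_congr rfl fun t _ => (sum_div _ _ _).symm
        _ ≤ _ := h2
        _ = 2 * (Nat.log 2 Q + 1) * K * T := by ring)
  calc ∑ s ∈ Icc 1 Q, ∑ t ∈ Icc 1 Q, c s t / (s * t) = ∑ s ∈ Icc 1 Q, (∑ t ∈ Icc 1 Q, c s t / t) / s := by
        apply sum_congr rfl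
        intro s _
        rw [sum_div]
        apply sum_congr rfl
        intro t _
        rw [div_div, mul_comm]
    _ ≤ _ := h1
    _ = _ := by ring

end Pool.Agent.Q129.L2
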