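import Pool.Agent.Q255.L2.StmN
import Pool.Agent.H358R2.Asym
import Pool.Agent.Q129.L2.MNa

/-!
# Pairs of numbers whose quotient is close to one: the norm
-/

set_option autoImplicit false

namespace Pool.Agent.Q129.L2

open Finset Pool.Agent.Q255.L2

open Classical in
/-- the coprime pairs up to `Q` -/
noncomputable def PP (Q s t : ℕ) : Finset (ℕ × ℕ) :=
  (Icc 1 Q ×ˢ Icc 1 Q).filter fun p => Nat.Coprime p.1 p.2 ∧ s * p.1 ^ 2 ≠ t * p.2 ^ 2

/-- the weight of the pairs -/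
noncomputable def FF (H : ℝ) (Q s t : ℕ) : ℝ :=
  ∑ p ∈ PP Q s t, min H (1 / lam s t p.1 p.2) / (p.1 * p.2)

theorem lam_nonneg (s t a b : ℕ) : 0 ≤ lam s t a b := abs_nonneg _

theorem FF_nonneg {H : ℝ} (hH : 0 ≤ H) (Q s t : ℕ) : 0 ≤ FF H Q s t := by
  unfold FF
  apply sum_nonneg
  intro p _
  have := lam_nonneg s t p.1 p.2
  exact div_nonneg (le_min hH (by positivity)) (by positivity)

theorem layer {H l : ℝ} {M : ℕ} (hM : H ≤ 2 ^ M) :
    ∃ κ ∈ range (M + 1), (κ = 0 ∨ l ≤ 1 / 2 ^ κ) ∧ min H (1 / l) ≤ 2 ^ (κ + 1) := by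
  classical
  set P : ℕ → Prop := fun κ => κ = 0 ∨ l ≤ 1 / 2 ^ κ with hP
  set κ := Nat.findGreatest P M with hκ
  have h1 : P κ := Nat.findGreatest_spec (P := P) (Nat.zero_le M) (Or.inl rfl)
  have h2 : κ ≤ M := Nat.findGreatest_le M
  refine ⟨κ, mem_range.mpr (by omega), h1, ?_⟩
  rcases h2.eq_or_lt with h | h
  · rw [h]
    exact (min_le_left _ _).trans (hM.trans (pow_le_pow_right₀ (by norm_num) (by omega)))
  · have h3 : ¬ P (κ + 1) := Nat.findGreatest_is_greatest (P := P) (n := M) (k := κ + 1)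
      (Nat.lt_succ_self κ) (by omega)
    have h4 : 1 / 2 ^ (κ + 1) < l := by
      by_contra h5
      exact h3 (Or.inr (not_lt.mp h5))
    have h0 : (0 : ℝ) < 1 / 2 ^ (κ + 1) := by positivity
    refine (min_le_right _ _).trans ?_
    rw [div_le_iff₀ (h0.trans h4)]
    rw [div_lt_iff₀ (by positivity)] at h4
    linarith

/-- the classes -/
noncomputable def Om (M Q : ℕ) : Finset (ℕ × (ℕ × ℕ)) :=
  range (M + 1) ×ˢ (range (Nat.log 2 Q + 1) ×ˢ range (Nat.log 2 Q + 1))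

/-- the weight of the class -/
noncomputable def W (ω : ℕ × (ℕ × ℕ)) : ℝ := 2 ^ (ω.1 + 1) * (1 / 2 ^ ω.2.1 * (1 / 2 ^ ω.2.2))

theorem W_nonneg (ω : ℕ × (ℕ × ℕ)) : 0 ≤ W ω := by
  unfold W
  positivity

/-- the number of the pairs of the class -/
noncomputable def cc (s t : ℕ) (ω : ℕ × (ℕ × ℕ)) : ℝ :=
  ((AB (2 ^ (ω.2.1 + 1)) (2 ^ (ω.2.2 + 1)) ω.1 s t).card : ℝ)

theorem FF_le {H : ℝ} {M : ℕ} (hM : H ≤ 2 ^ M) (Q s t : ℕ) :
    FF H Q s t ≤ ∑ ω ∈ Om M Q, W ω * cc s t ω := by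
  classical
  have h1 : ∀ p ∈ PP Q s t, min H (1 / lam s t p.1 p.2) / (p.1 * p.2) ≤ ∑ ω ∈ Om M Q,
      W ω * (if p ∈ AB (2 ^ (ω.2.1 + 1)) (2 ^ (ω.2.2 + 1)) ω.1 s t then (1 : ℝ) else 0) := by
    intro p hp
    unfold PP at hp
    rw [mem_filter, mem_product] at hp
    obtain ⟨⟨hp1, hp2⟩, hp3, hp4⟩ := hp
    obtain ⟨κ, hκ, hκ1, hκ2⟩ := layer (H := H) (l := lam s t p.1 p.2) hM
    obtain ⟨α, hα, hα1, hα2⟩ := exists_dy hp1
    obtain ⟨β, hβ, hβ1, hβ2⟩ := exists_dy hp2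
    have hω : (κ, (α, β)) ∈ Om M Q := by
      unfold Om
      rw [mem_product, mem_product]
      exact ⟨hκ, hα, hβ⟩
    have hAB : p ∈ AB (2 ^ (α + 1)) (2 ^ (β + 1)) κ s t := by
      rw [mem_AB]
      exact ⟨⟨(mem_Icc.mp hp1).1, hα1, (mem_Icc.mp hp2).1, hβ1⟩, hp3, hp4, hκ1⟩
    refine le_trans ?_ (single_le_sum (f := fun ω : ℕ × (ℕ × ℕ) =>
      W ω * (if p ∈ AB (2 ^ (ω.2.1 + 1)) (2 ^ (ω.2.2 + 1)) ω.1 s t then (1 : ℝ) else 0))
      (fun i _ => by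
        apply mul_nonneg (W_nonneg i)
        split_ifs
        · exact zero_le_one
        · exact le_rfl) hω)
    simp only
    rw [if_pos hAB, mul_one]
    unfold W
    have h0 := lam_nonneg s t p.1 p.2
    calc min H (1 / lam s t p.1 p.2) / (p.1 * p.2)
        = min H (1 / lam s t p.1 p.2) * (1 / p.1 * (1 / p.2)) := by
          rw [div_eq_mul_inv, mul_inv, one_div, one_div, one_div]
      _ ≤ 2 ^ (κ + 1) * (1 / 2 ^ α * (1 / 2 ^ β)) := by
          apply mul_le_mul hκ2 _ (by positivity) (by positivity)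
          exact mul_le_mul hα2 hβ2 (by positivity) (by positivity)
  calc FF H Q s t ≤ ∑ p ∈ PP Q s t, ∑ ω ∈ Om M Q,
      W ω * (if p ∈ AB (2 ^ (ω.2.1 + 1)) (2 ^ (ω.2.2 + 1)) ω.1 s t then (1 : ℝ) else 0) := sum_le_sum h1
    _ = ∑ ω ∈ Om M Q, W ω * ∑ p ∈ PP Q s t,
        (if p ∈ AB (2 ^ (ω.2.1 + 1)) (2 ^ (ω.2.2 + 1)) ω.1 s t then (1 : ℝ) else 0) := by
        rw [sum_comm]
        exact sum_congr rfl fun ω _ => (mul_sum _ _ _).symm
    _ ≤ ∑ ω ∈ Om M Q, W ω * cc s t ω := by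
        apply sum_le_sum
        intro ω _
        apply mul_le_mul_of_nonneg_left _ (W_nonneg ω)
        unfold cc
        rw [Finset.sum_boole]
        apply Nat.cast_le.mpr
        apply card_le_card
        intro p hp
        exact (mem_filter.mp hp).2

theorem card_Om (M Q : ℕ) : ((Om M Q).card : ℝ) = (M + 1) * (Nat.log 2 Q + 1) ^ 2 := by
  unfold Om
  rw [card_product, card_product, card_range, card_range]
  push_cast
  ring

/-- the main bound -/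
theorem TT_le {H : ℝ} {M : ℕ} (hM : H ≤ 2 ^ M) (hH : 0 ≤ H) (Q : ℕ) :
    ∑ s ∈ Icc 1 Q, ∑ t ∈ Icc 1 Q, FF H Q s t ^ 2 / (s * t) ≤
      1024 * (M + 1) ^ 2 * (Nat.log 2 Q + 1) ^ 6 * 2 ^ M := by
  have h1 := dy2 Q (fun s t => FF H Q s t ^ 2) (fun s t => sq_nonneg _)
    (256 * (M + 1) ^ 2 * (Nat.log 2 Q + 1) ^ 4 * 2 ^ M) (by
      intro T U
      calc ∑ s ∈ Icc 1 T, ∑ t ∈ Icc 1 U, FF H Q s t ^ 2
          ≤ ∑ s ∈ Icc 1 T, ∑ t ∈ Icc 1 U, ((Om M Q).card : ℝ) * ∑ ω ∈ Om M Q, (W ω * cc s t ω) ^ 2 := by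
            apply sum_le_sum
            intro s _
            apply sum_le_sum
            intro t _
            exact (pow_le_pow_left₀ (FF_nonneg hH Q s t) (FF_le hM Q s t) 2).trans
              sq_sum_le_card_mul_sum_sq
        _ = ((Om M Q).card : ℝ) * ∑ ω ∈ Om M Q, W ω ^ 2 * ∑ s ∈ Icc 1 T, ∑ t ∈ Icc 1 U, cc s t ω ^ 2 := by
            simp_rw [mul_pow, mul_sum]
            calc _ = ∑ s ∈ Icc 1 T, ∑ ω ∈ Om M Q, ∑ t ∈ Icc 1 U,
                  ((Om M Q).card : ℝ) * (W ω ^ 2 * cc s t ω ^ 2) := sum_congr rfl fun s _ => sum_comm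
              _ = _ := sum_comm
        _ ≤ ((Om M Q).card : ℝ) * ∑ ω ∈ Om M Q, (256 * 2 ^ M * T * U : ℝ) := by
            apply mul_le_mul_of_nonneg_left _ (by positivity)
            apply sum_le_sum
            intro ω hω
            have h2 := key T U (2 ^ (ω.2.1 + 1)) (2 ^ (ω.2.2 + 1)) ω.1
            have h3 : ω.1 ≤ M := by
              unfold Om at hω
              rw [mem_product, mem_range] at hω
              omega
            calc W ω ^ 2 * ∑ s ∈ Icc 1 T, ∑ t ∈ Icc 1 U, cc s t ω ^ 2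
                ≤ W ω ^ 2 * (4 * (1 / 2 ^ ω.1) * (((2 ^ (ω.2.1 + 1) : ℕ) : ℝ) * ((2 ^ (ω.2.2 + 1) : ℕ) : ℝ)) ^ 2 * T * U) :=
                  mul_le_mul_of_nonneg_left h2 (sq_nonneg _)
              _ = 256 * 2 ^ ω.1 * T * U := by
                  unfold W
                  push_cast
                  field_simp
                  ring
              _ ≤ 256 * 2 ^ M * T * U := by
                  apply mul_le_mul_of_nonneg_right _ (by positivity)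
                  apply mul_le_mul_of_nonneg_right _ (by positivity)
                  apply mul_le_mul_of_nonneg_left _ (by norm_num)
                  exact pow_le_pow_right₀ (by norm_num) h3
        _ = 256 * (M + 1) ^ 2 * (Nat.log 2 Q + 1) ^ 4 * 2 ^ M * T * U := by
            rw [sum_const, nsmul_eq_mul, card_Om]
            ring)
  refine h1.trans (le_of_eq ?_)
  ring

/-! ## Numbers -/

theorem sqf_unique {r t s s' : ℕ} (hr : 1 ≤ r) (hs : Squarefree s) (hs' : Squarefree s')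
    (h : r ^ 2 * s = t ^ 2 * s') : s = s' ∧ r = t := by
  obtain ⟨r', t', hc, hr', ht'⟩ := Nat.exists_coprime r t
  have hg : 0 < Nat.gcd r t := Nat.gcd_pos_of_pos_left _ hr
  have h1 : r' ^ 2 * s = t' ^ 2 * s' := by
    apply Nat.eq_of_mul_eq_mul_left (pow_pos hg 2)
    calc Nat.gcd r t ^ 2 * (r' ^ 2 * s) = (r' * Nat.gcd r t) ^ 2 * s := by ring
      _ = r ^ 2 * s := by rw [← hr']
      _ = t ^ 2 * s' := h
      _ = (t' * Nat.gcd r t) ^ 2 * s' := by rw [← ht']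
      _ = Nat.gcd r t ^ 2 * (t' ^ 2 * s') := by ring
  have h2 : r' ^ 2 ∣ s' := by
    apply (Nat.Coprime.pow 2 2 hc).dvd_of_dvd_mul_left
    exact ⟨s, h1.symm⟩
  have h3 : t' ^ 2 ∣ s := by
    apply (Nat.Coprime.pow 2 2 hc.symm).dvd_of_dvd_mul_left
    exact ⟨s', h1⟩
  have h4 : r' = 1 := by
    have := hs' r' (by rwa [← sq])
    exact Nat.isUnit_iff.mp this
  have h5 : t' = 1 := by
    have := hs t' (by rwa [← sq])
    exact Nat.isUnit_iff.mp this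
  rw [h4, h5] at h1
  refine ⟨by simpa using h1, ?_⟩
  calc r = r' * Nat.gcd r t := hr'
    _ = t' * Nat.gcd r t := by rw [h4, h5]
    _ = t := ht'.symm

theorem dec {u v r s : ℕ} (hu : 1 ≤ u) (hv : 1 ≤ v) (hr : 1 ≤ r) (hs : Squarefree s)
    (he : u * v = r ^ 2 * s) : ∃ d s₁ s₂ a b : ℕ, 1 ≤ d ∧ 1 ≤ s₁ ∧ 1 ≤ s₂ ∧ 1 ≤ a ∧ 1 ≤ b ∧
      Nat.Coprime a b ∧ u = d * (s₁ * a ^ 2) ∧ v = d * (s₂ * b ^ 2) ∧ s₁ * s₂ = s ∧ d * a * b = r := by
  obtain ⟨u', v', hc, hu', hv'⟩ := Nat.exists_coprime u v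
  have hg : 0 < Nat.gcd u v := Nat.gcd_pos_of_pos_left _ hu
  have hu0 : 0 < u' := by
    rcases Nat.eq_zero_or_pos u' with h | h
    · rw [h] at hu'
      omega
    · exact h
  have hv0 : 0 < v' := by
    rcases Nat.eq_zero_or_pos v' with h | h
    · rw [h] at hv'
      omega
    · exact h
  obtain ⟨s₁, a, hs1, ha, e1, q1⟩ := Nat.sq_mul_squarefree_of_pos hu0
  obtain ⟨s₂, b, hs2, hb, e2, q2⟩ := Nat.sq_mul_squarefree_of_pos hv0
  have d1 : s₁ ∣ u' := ⟨a ^ 2, by rw [← e1]; ring⟩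
  have d2 : s₂ ∣ v' := ⟨b ^ 2, by rw [← e2]; ring⟩
  have d3 : a ∣ u' := ⟨a * s₁, by rw [← e1]; ring⟩
  have d4 : b ∣ v' := ⟨b * s₂, by rw [← e2]; ring⟩
  have hc1 : Nat.Coprime s₁ s₂ := Nat.Coprime.coprime_dvd_left d1 (Nat.Coprime.coprime_dvd_right d2 hc)
  have hc2 : Nat.Coprime a b := Nat.Coprime.coprime_dvd_left d3 (Nat.Coprime.coprime_dvd_right d4 hc)
  have hq : Squarefree (s₁ * s₂) := (Nat.squarefree_mul hc1).mpr ⟨q1, q2⟩
  have h1 : r ^ 2 * s = (Nat.gcd u v * a * b) ^ 2 * (s₁ * s₂) := by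
    rw [← he]
    calc u * v = (u' * Nat.gcd u v) * (v' * Nat.gcd u v) := by rw [← hu', ← hv']
      _ = (a ^ 2 * s₁ * Nat.gcd u v) * (b ^ 2 * s₂ * Nat.gcd u v) := by rw [e1, e2]
      _ = _ := by ring
  obtain ⟨h2, h3⟩ := sqf_unique hr hs hq h1
  refine ⟨Nat.gcd u v, s₁, s₂, a, b, hg, hs1, hs2, ha, hb, hc2, ?_, ?_, h2.symm, h3.symm⟩
  · rw [mul_comm s₁, e1, mul_comm]
    exact hu'
  · rw [mul_comm s₂, e2, mul_comm]
    exact hv'

/-! ## The norm -/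

open Classical in
/-- the factorisations of `s` -/
noncomputable def QQ (Q s : ℕ) : Finset (ℕ × ℕ) := (Icc 1 Q ×ˢ Icc 1 Q).filter fun q => q.1 * q.2 = s

/-- the weight of a pair of numbers -/
noncomputable def gg (H : ℝ) (p : ℕ × ℕ) : ℝ :=
  min H (1 / |Real.log ((p.1 : ℝ) / p.2)|) / √((p.1 : ℝ) * p.2)

theorem gg_nonneg {H : ℝ} (hH : 0 ≤ H) (p : ℕ × ℕ) : 0 ≤ gg H p := by
  unfold gg
  exact div_nonneg (le_min hH (by positivity)) (Real.sqrt_nonneg _)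

theorem gg_form {H : ℝ} {d s t a b : ℕ} (hd : 1 ≤ d) (hs : 1 ≤ s) (ht : 1 ≤ t) (ha : 1 ≤ a) (hb : 1 ≤ b) :
    gg H (d * (s * a ^ 2), d * (t * b ^ 2)) =
      1 / d * (1 / √((s * t : ℕ) : ℝ) * (min H (1 / lam s t a b) / (a * b))) := by
  have hd0 : (0 : ℝ) < d := by exact_mod_cast hd
  have hs0 : (0 : ℝ) < s := by exact_mod_cast hs
  have ht0 : (0 : ℝ) < t := by exact_mod_cast ht
  have ha0 : (0 : ℝ) < a := by exact_mod_cast ha
  have hb0 : (0 : ℝ) < b := by exact_mod_cast hb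
  unfold gg lam
  simp only
  rw [← log_form hs ha, ← log_form ht hb, ← Real.log_div (by positivity) (by positivity)]
  push_cast
  rw [mul_div_mul_left _ _ hd0.ne']
  have e : (d : ℝ) * (s * a ^ 2) * (d * (t * b ^ 2)) = (d * (a * b)) ^ 2 * (s * t) := by ring
  rw [e, Real.sqrt_mul (by positivity), Real.sqrt_sq (by positivity)]
  rw [div_eq_mul_inv, div_eq_mul_inv, mul_inv, mul_inv, one_div, one_div]
  ring

theorem inner {H : ℝ} (hH : 0 ≤ H) (Q X : ℕ) (w : ℕ → ℝ)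
    (hw : ∀ l, |w l| ≤ if IsSquare l then 0 else ∑ p ∈ (Icc 1 Q ×ˢ Icc 1 Q).filter (fun p => p.1 * p.2 = l),
      gg H p) {s : ℕ} (hs : Squarefree s) :
    ∑ r ∈ Icc 1 X, |w (r ^ 2 * s)| ≤
      (∑ d ∈ Icc 1 Q, (1 : ℝ) / d) * ((1 / √(s : ℝ)) * ∑ q ∈ QQ Q s, FF H Q q.1 q.2) := by
  classical
  set A : Finset (ℕ × (ℕ × ℕ)) := (Icc 1 X ×ˢ (Icc 1 Q ×ˢ Icc 1 Q)).filter fun x =>
    x.2.1 * x.2.2 = x.1 ^ 2 * s ∧ ¬ IsSquare (x.1 ^ 2 * s) with hA
  have h1 : ∑ r ∈ Icc 1 X, |w (r ^ 2 * s)| ≤ ∑ x ∈ A, gg H x.2 := by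
    rw [hA, sum_filter, sum_product]
    apply sum_le_sum
    intro r _
    refine (hw _).trans ?_
    by_cases h : IsSquare (r ^ 2 * s)
    · rw [if_pos h]
      apply sum_nonneg
      intro p _
      split_ifs
      · exact gg_nonneg hH _
      · exact le_rfl
    · rw [if_neg h, sum_filter]
      apply le_of_eq
      apply sum_congr rfl
      intro p _
      by_cases h2 : p.1 * p.2 = r ^ 2 * s
      · rw [if_pos h2, if_pos ⟨h2, h⟩]
      · rw [if_neg h2, if_neg (fun h3 => h2 h3.1)]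
  set G : Finset (ℕ × (Σ _ : ℕ × ℕ, ℕ × ℕ)) := Icc 1 Q ×ˢ ((QQ Q s).sigma fun q => PP Q q.1 q.2) with hG
  set e : ℕ × (Σ _ : ℕ × ℕ, ℕ × ℕ) → ℕ × (ℕ × ℕ) := fun x =>
    (x.1 * x.2.2.1 * x.2.2.2, (x.1 * (x.2.1.1 * x.2.2.1 ^ 2), x.1 * (x.2.1.2 * x.2.2.2 ^ 2))) with he
  have h2 : A ⊆ G.image e := by
    rintro ⟨r, u, v⟩ hx
    rw [hA, mem_filter, mem_product, mem_product] at hx
    obtain ⟨⟨hr, hu, hv⟩, h3, h4⟩ := hx
    simp only at hr hu hv h3 h4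
    rw [mem_Icc] at hr hu hv
    obtain ⟨d, s₁, s₂, a, b, hd, hs1, hs2, ha, hb, hc, eu, ev, es, er⟩ := dec hu.1 hv.1 hr.1 hs h3
    have hu2 : d * (s₁ * a ^ 2) ≤ Q := eu ▸ hu.2
    have hv2 : d * (s₂ * b ^ 2) ≤ Q := ev ▸ hv.2
    have p1 : 1 ≤ a ^ 2 := Nat.one_le_pow _ _ ha
    have p2 : 1 ≤ b ^ 2 := Nat.one_le_pow _ _ hb
    have l1 : d ≤ Q := le_trans (Nat.le_mul_of_pos_right d (Nat.mul_pos hs1 p1)) hu2
    have l2 : s₁ * a ^ 2 ≤ Q := le_trans (Nat.le_mul_of_pos_left _ hd) hu2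
    have l3 : s₂ * b ^ 2 ≤ Q := le_trans (Nat.le_mul_of_pos_left _ hd) hv2
    have l4 : s₁ ≤ Q := le_trans (Nat.le_mul_of_pos_right _ p1) l2
    have l5 : s₂ ≤ Q := le_trans (Nat.le_mul_of_pos_right _ p2) l3
    have l6 : a ≤ Q := le_trans (Nat.le_self_pow (by norm_num) a) (le_trans (Nat.le_mul_of_pos_left _ hs1) l2)
    have l7 : b ≤ Q := le_trans (Nat.le_self_pow (by norm_num) b) (le_trans (Nat.le_mul_of_pos_left _ hs2) l3)
    rw [mem_image]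
    refine ⟨(d, ⟨(s₁, s₂), (a, b)⟩), ?_, ?_⟩
    · rw [hG, mem_product, mem_sigma]
      refine ⟨mem_Icc.mpr ⟨hd, l1⟩, ?_, ?_⟩
      · unfold QQ
        rw [mem_filter, mem_product, mem_Icc, mem_Icc]
        exact ⟨⟨⟨hs1, l4⟩, hs2, l5⟩, es⟩
      · unfold PP
        rw [mem_filter, mem_product, mem_Icc, mem_Icc]
        refine ⟨⟨⟨ha, l6⟩, hb, l7⟩, hc, ?_⟩
        intro h5
        simp only at h5
        apply h4
        rw [← h3, eu, ev, h5]
        exact ⟨_, rfl⟩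
    · rw [he]
      simp only
      rw [er, ← eu, ← ev]
  have h3 : ∑ x ∈ A, gg H x.2 ≤ ∑ x ∈ G, gg H (e x).2 :=
    (sum_le_sum_of_subset_of_nonneg h2 fun x _ _ => gg_nonneg hH _).trans
      (sum_image_le_of_nonneg fun x _ => gg_nonneg hH _)
  refine h1.trans (h3.trans (le_of_eq ?_))
  rw [hG, sum_product]
  rw [sum_mul]
  apply sum_congr rfl
  intro d hd
  rw [sum_sigma, mul_sum, mul_sum]
  apply sum_congr rfl
  intro q hq
  unfold FF
  rw [mul_sum, mul_sum]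
  apply sum_congr rfl
  intro p hp
  unfold QQ at hq
  unfold PP at hp
  rw [mem_filter, mem_product, mem_Icc, mem_Icc] at hq hp
  rw [he]
  simp only
  rw [gg_form (mem_Icc.mp hd).1 hq.1.1.1 hq.1.2.1 hp.1.1.1 hp.1.2.1, hq.2]

theorem Z_le (Q : ℕ) : ∑ d ∈ Icc 1 Q, (1 : ℝ) / d ≤ 2 * (Nat.log 2 Q + 1) := by
  have h := dy1 Q (fun _ => 1) (fun _ => zero_le_one) 1 (by
    intro T
    rw [sum_const, Nat.card_Icc, nsmul_eq_mul]
    simp)
  rw [mul_one] at h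
  exact h

theorem logpow {η : ℝ} (hη : 0 < η) : ∃ C : ℝ, 1 ≤ C ∧ ∀ (n : ℕ) (x : ℝ), 1 ≤ x → 2 ^ n ≤ x →
    (n : ℝ) + 2 ≤ C * x ^ η := by
  have hl : 0 < Real.log 2 := Real.log_pos (by norm_num)
  have h0 : 0 < 1 / (η * Real.log 2) := by positivity
  refine ⟨1 / (η * Real.log 2) + 2, by linarith, ?_⟩
  intro n x hx hn
  have h1 : (n : ℝ) * Real.log 2 ≤ Real.log x := by
    rw [← Real.log_pow]
    exact Real.log_le_log (by positivity) hn
  have h2 := Real.log_le_rpow_div (by linarith : 0 ≤ x) hη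
  have h3 : 1 ≤ x ^ η := Real.one_le_rpow hx hη.le
  have h4 : (n : ℝ) ≤ 1 / (η * Real.log 2) * x ^ η := by
    have : (n : ℝ) ≤ (x ^ η / η) / Real.log 2 := by
      rw [le_div_iff₀ hl]
      linarith
    refine this.trans (le_of_eq ?_)
    field_simp
  linarith

theorem card_QQ {C η : ℝ} (hη : 0 < η) (hC : 0 ≤ C) (hb : ∀ n : ℕ, n ≠ 0 → (n.divisors.card : ℝ) ≤ C * (n : ℝ) ^ η)
    (Q s : ℕ) : ((QQ Q s).card : ℝ) ≤ C * ((Q : ℝ) ^ 2) ^ η := by
  classical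
  rcases (QQ Q s).eq_empty_or_nonempty with h | ⟨q, hq⟩
  · rw [h]
    simp only [card_empty, Nat.cast_zero]
    positivity
  · unfold QQ at hq
    rw [mem_filter, mem_product, mem_Icc, mem_Icc] at hq
    have hs1 : 1 ≤ s := by
      rw [← hq.2]
      exact Nat.mul_pos hq.1.1.1 hq.1.2.1
    have hs2 : s ≤ Q ^ 2 := by
      rw [← hq.2, sq]
      exact Nat.mul_le_mul hq.1.1.2 hq.1.2.2
    have h1 : (QQ Q s).card ≤ s.divisors.card := by
      apply card_le_card_of_injOn (fun q => q.1)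
      · intro x hx
        rw [mem_coe] at hx ⊢
        unfold QQ at hx
        rw [mem_filter] at hx
        rw [Nat.mem_divisors]
        exact ⟨⟨x.2, hx.2.symm⟩, by omega⟩
      · intro x hx y hy hxy
        rw [mem_coe] at hx hy
        unfold QQ at hx hy
        rw [mem_filter, mem_product, mem_Icc] at hx hy
        have h2 : x.1 = y.1 := hxy
        have h3 : x.1 * x.2 = x.1 * y.2 := by
          rw [hx.2, h2, hy.2]
        exact Prod.ext h2 (Nat.eq_of_mul_eq_mul_left hx.1.1.1 h3)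
    calc ((QQ Q s).card : ℝ) ≤ (s.divisors.card : ℝ) := by exact_mod_cast h1
      _ ≤ C * (s : ℝ) ^ η := hb s (by omega)
      _ ≤ C * ((Q : ℝ) ^ 2) ^ η := by
          apply mul_le_mul_of_nonneg_left _ hC
          apply Real.rpow_le_rpow (by positivity) _ hη.le
          exact_mod_cast hs2

/-- the norm is at most `Z² D` times the main sum -/
theorem nn_le {H D : ℝ} (hH : 0 ≤ H) (Q X : ℕ) (w : ℕ → ℝ) (hD : ∀ s, ((QQ Q s).card : ℝ) ≤ D)
    (hw : ∀ l, |w l| ≤ if IsSquare l then 0 else ∑ p ∈ (Icc 1 Q ×ˢ Icc 1 Q).filter (fun p => p.1 * p.2 = l),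
      gg H p) :
    nn X w ≤ (2 * (Nat.log 2 Q + 1)) ^ 2 * (D * ∑ s ∈ Icc 1 Q, ∑ t ∈ Icc 1 Q, FF H Q s t ^ 2 / (s * t)) := by
  classical
  unfold nn
  set Z : ℝ := ∑ d ∈ Icc 1 Q, (1 : ℝ) / d with hZ
  have hZ0 : 0 ≤ Z := sum_nonneg fun d _ => by positivity
  have hZ2 : Z ^ 2 ≤ (2 * (Nat.log 2 Q + 1)) ^ 2 := pow_le_pow_left₀ hZ0 (Z_le Q) 2
  have hD0 : 0 ≤ D := le_trans (by positivity) (hD 0)
  have h1 : ∀ s ∈ (Icc 1 X).filter Squarefree, (∑ r ∈ Icc 1 X, |w (r ^ 2 * s)|) ^ 2 ≤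
      Z ^ 2 * (D * ∑ q ∈ QQ Q s, FF H Q q.1 q.2 ^ 2 / (q.1 * q.2)) := by
    intro s hs
    rw [mem_filter, mem_Icc] at hs
    have hs0 : (0 : ℝ) < s := by exact_mod_cast hs.1.1
    have h2 := inner hH Q X w hw hs.2
    have h3 : 0 ≤ ∑ r ∈ Icc 1 X, |w (r ^ 2 * s)| := sum_nonneg fun r _ => abs_nonneg _
    calc (∑ r ∈ Icc 1 X, |w (r ^ 2 * s)|) ^ 2
        ≤ (Z * ((1 / √(s : ℝ)) * ∑ q ∈ QQ Q s, FF H Q q.1 q.2)) ^ 2 := pow_le_pow_left₀ h3 h2 2
      _ = Z ^ 2 * ((1 / s) * (∑ q ∈ QQ Q s, FF H Q q.1 q.2) ^ 2) := by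
          rw [mul_pow, mul_pow, div_pow, one_pow, Real.sq_sqrt hs0.le]
      _ ≤ Z ^ 2 * ((1 / s) * (((QQ Q s).card : ℝ) * ∑ q ∈ QQ Q s, FF H Q q.1 q.2 ^ 2)) := by
          apply mul_le_mul_of_nonneg_left _ (sq_nonneg _)
          apply mul_le_mul_of_nonneg_left _ (by positivity)
          exact sq_sum_le_card_mul_sum_sq
      _ ≤ Z ^ 2 * ((1 / s) * (D * ∑ q ∈ QQ Q s, FF H Q q.1 q.2 ^ 2)) := by
          apply mul_le_mul_of_nonneg_left _ (sq_nonneg _)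
          apply mul_le_mul_of_nonneg_left _ (by positivity)
          exact mul_le_mul_of_nonneg_right (hD s) (sum_nonneg fun q _ => sq_nonneg _)
      _ = Z ^ 2 * (D * ∑ q ∈ QQ Q s, FF H Q q.1 q.2 ^ 2 / (q.1 * q.2)) := by
          congr 1
          rw [← mul_assoc, mul_comm (1 / (s : ℝ)) D, mul_assoc, mul_sum]
          congr 1
          apply sum_congr rfl
          intro q hq
          unfold QQ at hq
          rw [mem_filter] at hq
          rw [← hq.2]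
          push_cast
          ring
  calc ∑ s ∈ (Icc 1 X).filter Squarefree, (∑ r ∈ Icc 1 X, |w (r ^ 2 * s)|) ^ 2
      ≤ ∑ s ∈ (Icc 1 X).filter Squarefree, Z ^ 2 * (D * ∑ q ∈ QQ Q s, FF H Q q.1 q.2 ^ 2 / (q.1 * q.2)) :=
        sum_le_sum h1
    _ = Z ^ 2 * (D * ∑ s ∈ (Icc 1 X).filter Squarefree, ∑ q ∈ QQ Q s, FF H Q q.1 q.2 ^ 2 / (q.1 * q.2)) := by
        rw [← mul_sum, ← mul_sum]
    _ ≤ Z ^ 2 * (D * ∑ q ∈ Icc 1 Q ×ˢ Icc 1 Q, FF H Q q.1 q.2 ^ 2 / (q.1 * q.2)) := by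
        apply mul_le_mul_of_nonneg_left _ (sq_nonneg _)
        apply mul_le_mul_of_nonneg_left _ hD0
        unfold QQ
        have h5 := sum_fiberwise_le_sum_of_sum_fiber_nonneg (s := Icc 1 Q ×ˢ Icc 1 Q)
          (t := (Icc 1 X).filter Squarefree) (g := fun q : ℕ × ℕ => q.1 * q.2)
          (f := fun q : ℕ × ℕ => FF H Q q.1 q.2 ^ 2 / (q.1 * q.2))
          (fun y _ => sum_nonneg fun q _ => by positivity)
        exact h5
    _ = Z ^ 2 * (D * ∑ s ∈ Icc 1 Q, ∑ t ∈ Icc 1 Q, FF H Q s t ^ 2 / (s * t)) := by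
        rw [sum_product]
    _ ≤ _ := by
        apply mul_le_mul_of_nonneg_right hZ2
        apply mul_nonneg hD0
        exact sum_nonneg fun s _ => sum_nonneg fun t _ => by positivity

theorem mn : S_MN := by
  intro ε hε
  set η : ℝ := ε / 10 with hηd
  have hη : 0 < η := by positivity
  obtain ⟨C₁, hC₁, hb⟩ := Pool.Agent.H358R2.div_bound hη
  obtain ⟨C₂, hC₂, hl⟩ := logpow hη
  have hC10 : 0 ≤ C₁ := by linarith
  have hC20 : 0 ≤ C₂ := by linarith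
  refine ⟨8192 * C₁ * C₂ ^ 10, by positivity, ?_⟩
  intro Q X H w hQ hH hw
  have hH0 : 0 ≤ H := by linarith
  have hQ1 : (1 : ℝ) ≤ Q := by exact_mod_cast hQ
  obtain ⟨n, hn1, hn2⟩ := exists_nat_pow_near hH (by norm_num : (1 : ℝ) < 2)
  have h1 := nn_le hH0 Q X w (card_QQ hη hC10 hb Q) hw
  have h2 := TT_le hn2.le hH0 Q
  set L : ℕ := Nat.log 2 Q with hL
  have h3 : (L : ℝ) + 1 ≤ C₂ * (Q : ℝ) ^ η := by
    have := hl L Q hQ1 (by exact_mod_cast Nat.pow_log_le_self 2 (by omega : Q ≠ 0))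
    linarith
  have h4 : ((n + 1 : ℕ) : ℝ) + 1 ≤ C₂ * H ^ η := by
    have := hl n H hH hn1
    push_cast
    linarith
  have hQη : 0 ≤ (Q : ℝ) ^ η := by positivity
  have hHη : 0 ≤ H ^ η := by positivity
  have hHη1 : 1 ≤ H ^ η := Real.one_le_rpow hH hη.le
  have eq1 : ((Q : ℝ) ^ 2) ^ η = ((Q : ℝ) ^ η) ^ 2 := by
    rw [← Real.rpow_natCast, ← Real.rpow_natCast, ← Real.rpow_mul (by positivity), ← Real.rpow_mul (by positivity),
      mul_comm]
  have eq2 : ((Q : ℝ) * H) ^ ε = (((Q : ℝ) ^ η) ^ 10) * ((H ^ η) ^ 10) := by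
    rw [← mul_pow, ← Real.mul_rpow (by positivity) hH0, ← Real.rpow_natCast, ← Real.rpow_mul (by positivity)]
    congr 1
    rw [hηd]
    push_cast
    ring
  set q : ℝ := (Q : ℝ) ^ η with hq
  set k : ℝ := H ^ η with hk
  rw [eq1] at h1
  rw [eq2]
  have h5 : (2 : ℝ) ^ (n + 1) ≤ 2 * H := by
    rw [pow_succ]
    linarith
  calc nn X w ≤ (2 * ((L : ℝ) + 1)) ^ 2 * (C₁ * q ^ 2 *
        ∑ s ∈ Icc 1 Q, ∑ t ∈ Icc 1 Q, FF H Q s t ^ 2 / (s * t)) := h1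
    _ ≤ (2 * (C₂ * q)) ^ 2 * (C₁ * q ^ 2 * (1024 * (C₂ * k) ^ 2 * (C₂ * q) ^ 6 * (2 * H))) := by
        apply mul_le_mul (pow_le_pow_left₀ (by positivity) (by linarith) 2) _
          (by
            apply mul_nonneg (by positivity)
            exact sum_nonneg fun s _ => sum_nonneg fun t _ => by positivity) (by positivity)
        apply mul_le_mul_of_nonneg_left _ (by positivity)
        refine h2.trans ?_
        apply mul_le_mul _ h5 (by positivity) (by positivity)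
        apply mul_le_mul _ (pow_le_pow_left₀ (by positivity) h3 6) (by positivity) (by positivity)
        apply mul_le_mul_of_nonneg_left _ (by norm_num)
        exact pow_le_pow_left₀ (by positivity) h4 2
    _ = 8192 * C₁ * C₂ ^ 10 * (q ^ 10 * k ^ 2) * H := by ring
    _ ≤ 8192 * C₁ * C₂ ^ 10 * (q ^ 10 * k ^ 10) * H := by
        apply mul_le_mul_of_nonneg_right _ hH0
        apply mul_le_mul_of_nonneg_left _ (by positivity)
        apply mul_le_mul_of_nonneg_left _ (by positivity)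
        exact pow_le_pow_right₀ hHη1 (by norm_num)

end Pool.Agent.Q129.L2
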